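import Pool.Agent.H34.GU.Targets1

/-!
# Row DYU of gu_modules (MP_52e316_nt): dyadic decomposition
-/

set_option autoImplicit false

open MeasureTheory Pool.Agent.H34.GM Pool.Agent.H34.GZ Pool.Agent.H34.GU

namespace Pool.Agent.H75.GU

private theorem sf_half (m q : ℕ) (lam : ℕ → ℂ) (y : ℝ) (hy : 0 ≤ y) :
    SF m q lam y = DF m q lam y + SF m q lam (y / 2) := by
  unfold SF DF
  have h1 : Finset.Icc 1 ⌊y / 2⌋₊ =
      (Finset.Icc 1 ⌊y⌋₊).filter (fun n : ℕ => ¬ (y / 2 < (n : ℝ))) := by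
    ext n
    simp only [Finset.mem_Icc, Finset.mem_filter, not_lt]
    constructor
    · rintro ⟨h, h'⟩
      have h2 : (n : ℝ) ≤ y / 2 := (Nat.le_floor_iff (by linarith)).1 h'
      exact ⟨⟨h, Nat.le_floor (by linarith)⟩, h2⟩
    · rintro ⟨⟨h, h'⟩, h2⟩
      exact ⟨h, Nat.le_floor h2⟩
  rw [h1, Finset.sum_filter, ← Finset.sum_add_distrib]
  refine Finset.sum_congr rfl fun n _ => ?_
  by_cases h2 : y / 2 < (n : ℝ) <;> by_cases h3 : n.Coprime q <;> simp [h2, h3]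

private theorem sf_sum (m q : ℕ) (lam : ℕ → ℂ) (y : ℝ) (hy : 0 ≤ y) (J : ℕ) :
    SF m q lam y = ∑ j ∈ Finset.range J, DF m q lam (y / 2 ^ j) + SF m q lam (y / 2 ^ J) := by
  induction J with
  | zero => simp
  | succ J ih =>
    rw [ih, Finset.sum_range_succ, sf_half m q lam (y / 2 ^ J) (by positivity), pow_succ,
      div_mul_eq_div_div, add_assoc]

private theorem sf_zero (m q : ℕ) (lam : ℕ → ℂ) (y : ℝ) (hy : y < 1) : SF m q lam y = 0 := by
  unfold SF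
  rw [Nat.floor_eq_zero.2 hy]
  simp

private theorem df_zero (m q : ℕ) (lam : ℕ → ℂ) (y : ℝ) (hy : y < 1) : DF m q lam y = 0 := by
  unfold DF
  rw [Nat.floor_eq_zero.2 hy]
  simp

private theorem sf_le (m q : ℕ) (lam : ℕ → ℂ) (y : ℝ) (hy : 0 ≤ y) :
    ENNReal.ofReal ‖SF m q lam y‖ ≤ ∑' j : ℕ, ENNReal.ofReal ‖DF m q lam (y / 2 ^ j)‖ := by
  obtain ⟨J, hJ⟩ := pow_unbounded_of_one_lt y (one_lt_two (α := ℝ))
  have h1 : y / 2 ^ J < 1 := by
    rw [div_lt_one (by positivity)]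
    exact hJ
  have h2 : SF m q lam y = ∑ j ∈ Finset.range J, DF m q lam (y / 2 ^ j) := by
    rw [sf_sum m q lam y hy J, sf_zero m q lam _ h1, add_zero]
  calc ENNReal.ofReal ‖SF m q lam y‖ ≤
      ENNReal.ofReal (∑ j ∈ Finset.range J, ‖DF m q lam (y / 2 ^ j)‖) := by
        rw [h2]
        exact ENNReal.ofReal_le_ofReal (norm_sum_le _ _)
    _ = ∑ j ∈ Finset.range J, ENNReal.ofReal ‖DF m q lam (y / 2 ^ j)‖ :=
        ENNReal.ofReal_sum_of_nonneg fun _ _ => norm_nonneg _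
    _ ≤ _ := ENNReal.sum_le_tsum _

private theorem df_one (m q : ℕ) (lam : ℕ → ℂ) (n : ℕ) : Measurable fun y : ℝ =>
    if y / 2 < (n : ℝ) ∧ n.Coprime q then (n : ℂ) ^ (((m : ℂ) - 1) / 2) * lam n else 0 := by
  refine Measurable.ite ?_ measurable_const measurable_const
  have h2 : {y : ℝ | y / 2 < (n : ℝ) ∧ n.Coprime q} =
      {y : ℝ | y / 2 < (n : ℝ)} ∩ {_y : ℝ | n.Coprime q} := rfl
  rw [h2]
  exact (measurableSet_lt (measurable_id.div_const 2) measurable_const).inter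
    (MeasurableSet.const _)

private theorem df_meas (m q : ℕ) (lam : ℕ → ℂ) : Measurable fun y : ℝ => DF m q lam y := by
  have h1 : Measurable fun p : ℕ × ℝ => ∑ n ∈ Finset.Icc 1 p.1,
      if p.2 / 2 < (n : ℝ) ∧ n.Coprime q then (n : ℂ) ^ (((m : ℂ) - 1) / 2) * lam n else 0 := by
    refine measurable_from_prod_countable_right fun k => ?_
    have hk : Measurable fun y : ℝ => ∑ n ∈ Finset.Icc 1 k,
        if y / 2 < (n : ℝ) ∧ n.Coprime q then (n : ℂ) ^ (((m : ℂ) - 1) / 2) * lam n else 0 := by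
      refine Finset.measurable_fun_sum _ fun n _ => df_one m q lam n
    exact hk
  have h3 : Measurable fun y : ℝ => ((⌊y⌋₊, y) : ℕ × ℝ) := Nat.measurable_floor.prodMk measurable_id
  exact h1.comp h3

private theorem wK_nonneg (m : ℕ) (κ J y : ℝ) (hκ : 0 < κ) (hy : 0 < y) :
    0 ≤ wK m κ J y := by
  unfold wK
  positivity

private theorem wK_anti (m : ℕ) (κ J y a : ℝ) (hκ : 0 < κ) (hJ : 0 ≤ J) (hy : 0 < y)
    (ha : 1 ≤ a) : wK m κ J (a * y) ≤ wK m κ J y := by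
  unfold wK
  refine min_le_min le_rfl (Real.rpow_le_rpow (by positivity) ?_ hJ)
  refine div_le_div_of_nonneg_left (by positivity) hy ?_
  nlinarith

private theorem wK_meas (m : ℕ) (κ J : ℝ) : Measurable fun y : ℝ => wK m κ J y := by
  unfold wK
  exact measurable_const.min ((measurable_const.div measurable_id).pow_const J)

private theorem subst (a : ℝ) (ha : 0 < a) (f : ℝ → ENNReal) (hf : Measurable f) :
    ∫⁻ y, f y = ENNReal.ofReal a * ∫⁻ y, f (a * y) := by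
  have h1 := Real.smul_map_volume_mul_left ha.ne'
  calc ∫⁻ y, f y = ∫⁻ y, f y ∂(ENNReal.ofReal |a| • Measure.map (a * ·) volume) := by rw [h1]
    _ = _ := by
      rw [lintegral_smul_measure, lintegral_map hf (measurable_const_mul a), abs_of_pos ha,
        smul_eq_mul]

private theorem one_term (m : ℕ) (κ J : ℝ) (lam : ℕ → ℂ) (hκ : 0 < κ) (hJ : 0 ≤ J) (j : ℕ) :
    ∫⁻ y in Set.Ioi (1 : ℝ), ENNReal.ofReal
      (‖DF m 1 lam (y / 2 ^ j)‖ * y ^ (-((m : ℝ) / 2) - 1) * wK m κ J y) ≤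
    ENNReal.ofReal (((2 : ℝ) ^ (-((m : ℝ) / 2))) ^ j) * ∫⁻ y in Set.Ioi (1 : ℝ), ENNReal.ofReal
      (‖DF m 1 lam y‖ * y ^ (-((m : ℝ) / 2) - 1) * wK m κ J y) := by
  have hm0 : Measurable fun y : ℝ => ENNReal.ofReal
      (‖DF m 1 lam y‖ * y ^ (-((m : ℝ) / 2) - 1) * wK m κ J y) :=
    (((df_meas m 1 lam).norm.mul (measurable_id.pow_const _)).mul (wK_meas m κ J)).ennreal_ofReal
  have hm1 : Measurable fun y : ℝ => ENNReal.ofReal
      (‖DF m 1 lam (y / 2 ^ j)‖ * y ^ (-((m : ℝ) / 2) - 1) * wK m κ J y) :=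
    (((((df_meas m 1 lam).comp (measurable_id.div_const _)).norm).mul
      (measurable_id.pow_const _)).mul (wK_meas m κ J)).ennreal_ofReal
  have ha : (0 : ℝ) < 2 ^ j := by positivity
  have ha1 : (1 : ℝ) ≤ 2 ^ j := one_le_pow₀ (by norm_num)
  rw [← lintegral_indicator measurableSet_Ioi, subst (2 ^ j) ha _
    (hm1.indicator measurableSet_Ioi)]
  have h1 : ∀ y : ℝ, (Set.Ioi (1 : ℝ)).indicator (fun y : ℝ => ENNReal.ofReal
      (‖DF m 1 lam (y / 2 ^ j)‖ * y ^ (-((m : ℝ) / 2) - 1) * wK m κ J y)) (2 ^ j * y) ≤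
      (Set.Ici (1 : ℝ)).indicator (fun y : ℝ => ENNReal.ofReal
        ((2 ^ j : ℝ) ^ (-((m : ℝ) / 2) - 1)) * ENNReal.ofReal
        (‖DF m 1 lam y‖ * y ^ (-((m : ℝ) / 2) - 1) * wK m κ J y)) y := by
    intro y
    by_cases hy : 1 ≤ y
    · have hy0 : 0 < y := by linarith
      rw [Set.indicator_of_mem (Set.mem_Ici.2 hy)]
      refine (Set.indicator_le_self _ _ _).trans ?_
      simp only
      rw [← ENNReal.ofReal_mul (by positivity), mul_div_cancel_left₀ y ha.ne']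
      refine ENNReal.ofReal_le_ofReal ?_
      rw [Real.mul_rpow ha.le hy0.le]
      have h2 := wK_anti m κ J y (2 ^ j) hκ hJ hy0 ha1
      have h3 : 0 ≤ (2 ^ j : ℝ) ^ (-((m : ℝ) / 2) - 1) * (‖DF m 1 lam y‖ *
        y ^ (-((m : ℝ) / 2) - 1)) := by positivity
      calc _ = (2 ^ j : ℝ) ^ (-((m : ℝ) / 2) - 1) * (‖DF m 1 lam y‖ *
            y ^ (-((m : ℝ) / 2) - 1)) * wK m κ J (2 ^ j * y) := by ring
        _ ≤ (2 ^ j : ℝ) ^ (-((m : ℝ) / 2) - 1) * (‖DF m 1 lam y‖ *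
            y ^ (-((m : ℝ) / 2) - 1)) * wK m κ J y := mul_le_mul_of_nonneg_left h2 h3
        _ = _ := by ring
    · have h2 : DF m 1 lam y = 0 := df_zero m 1 lam y (not_le.1 hy)
      rw [Set.indicator_of_notMem (fun h => hy (Set.mem_Ici.1 h))]
      refine (Set.indicator_le_self _ _ _).trans ?_
      simp only
      rw [mul_div_cancel_left₀ y ha.ne', h2]
      simp
  calc _ ≤ ENNReal.ofReal (2 ^ j) * ∫⁻ y, (Set.Ici (1 : ℝ)).indicator (fun y : ℝ =>
        ENNReal.ofReal ((2 ^ j : ℝ) ^ (-((m : ℝ) / 2) - 1)) * ENNReal.ofReal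
        (‖DF m 1 lam y‖ * y ^ (-((m : ℝ) / 2) - 1) * wK m κ J y)) y := by
        gcongr with y
        exact h1 y
    _ = ENNReal.ofReal (2 ^ j) * (ENNReal.ofReal ((2 ^ j : ℝ) ^ (-((m : ℝ) / 2) - 1)) *
        ∫⁻ y in Set.Ioi (1 : ℝ), ENNReal.ofReal
        (‖DF m 1 lam y‖ * y ^ (-((m : ℝ) / 2) - 1) * wK m κ J y)) := by
        rw [lintegral_indicator measurableSet_Ici, lintegral_const_mul _ hm0,
          setLIntegral_congr Ioi_ae_eq_Ici.symm]
    _ = _ := by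
        rw [← mul_assoc, ← ENNReal.ofReal_mul (by positivity)]
        have h2 : (2 ^ j : ℝ) * (2 ^ j : ℝ) ^ (-((m : ℝ) / 2) - 1) =
            ((2 : ℝ) ^ (-((m : ℝ) / 2))) ^ j := by
          rw [Real.rpow_sub_one ha.ne', mul_div_cancel₀ _ ha.ne', ← Real.rpow_natCast 2 j,
            ← Real.rpow_mul (by norm_num), ← Real.rpow_natCast, ← Real.rpow_mul (by norm_num),
            mul_comm]
        rw [h2]

theorem pf_DYU : T_DYU := by
  intro m hm
  set ρ : ℝ := (2 : ℝ) ^ (-((m : ℝ) / 2)) with hρ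
  have hm' : (1 : ℝ) ≤ m := by exact_mod_cast hm
  have hρ0 : 0 ≤ ρ := by positivity
  have hρ1 : ρ < 1 := Real.rpow_lt_one_of_one_lt_of_neg (by norm_num) (by linarith)
  refine ⟨(1 - ρ)⁻¹, inv_pos.2 (by linarith), fun κ J lam hκ1 hJ => ?_⟩
  have hκ : 0 < κ := by linarith
  have hm1 : ∀ j : ℕ, Measurable fun y : ℝ => ENNReal.ofReal
      (‖DF m 1 lam (y / 2 ^ j)‖ * y ^ (-((m : ℝ) / 2) - 1) * wK m κ J y) := fun j =>
    (((((df_meas m 1 lam).comp (measurable_id.div_const _)).norm).mul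
      (measurable_id.pow_const _)).mul (wK_meas m κ J)).ennreal_ofReal
  have h1 : ∑' j : ℕ, ENNReal.ofReal (ρ ^ j) = ENNReal.ofReal (1 - ρ)⁻¹ := by
    rw [← tsum_geometric_of_lt_one hρ0 hρ1,
      ENNReal.ofReal_tsum_of_nonneg (fun j => pow_nonneg hρ0 j)
        (summable_geometric_of_lt_one hρ0 hρ1)]
  calc _ ≤ ∫⁻ y in Set.Ioi (1 : ℝ), ∑' j : ℕ, ENNReal.ofReal
        (‖DF m 1 lam (y / 2 ^ j)‖ * y ^ (-((m : ℝ) / 2) - 1) * wK m κ J y) := by
        refine setLIntegral_mono' measurableSet_Ioi fun y hy => ?_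
        have hy0 : (0 : ℝ) < y := lt_trans one_pos (Set.mem_Ioi.1 hy)
        have h2 : 0 ≤ y ^ (-((m : ℝ) / 2) - 1) * wK m κ J y :=
          mul_nonneg (by positivity) (wK_nonneg m κ J y hκ hy0)
        have h3 : ∀ c : ℝ, 0 ≤ c → ENNReal.ofReal (c * y ^ (-((m : ℝ) / 2) - 1) * wK m κ J y) =
            ENNReal.ofReal c * ENNReal.ofReal (y ^ (-((m : ℝ) / 2) - 1) * wK m κ J y) := by
          intro c hc
          rw [← ENNReal.ofReal_mul hc, mul_assoc]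
        rw [h3 _ (norm_nonneg _)]
        calc _ ≤ (∑' j : ℕ, ENNReal.ofReal ‖DF m 1 lam (y / 2 ^ j)‖) *
              ENNReal.ofReal (y ^ (-((m : ℝ) / 2) - 1) * wK m κ J y) :=
              mul_le_mul_left (sf_le m 1 lam y hy0.le) _
          _ = _ := by
              rw [← ENNReal.tsum_mul_right]
              exact tsum_congr fun j => (h3 _ (norm_nonneg _)).symm
    _ = ∑' j : ℕ, ∫⁻ y in Set.Ioi (1 : ℝ), ENNReal.ofReal
        (‖DF m 1 lam (y / 2 ^ j)‖ * y ^ (-((m : ℝ) / 2) - 1) * wK m κ J y) :=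
        lintegral_tsum fun j => (hm1 j).aemeasurable
    _ ≤ ∑' j : ℕ, ENNReal.ofReal (ρ ^ j) * ∫⁻ y in Set.Ioi (1 : ℝ), ENNReal.ofReal
        (‖DF m 1 lam y‖ * y ^ (-((m : ℝ) / 2) - 1) * wK m κ J y) :=
        ENNReal.tsum_le_tsum fun j => one_term m κ J lam hκ hJ j
    _ = _ := by rw [ENNReal.tsum_mul_right, h1]

end Pool.Agent.H75.GU
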