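import Pool.Agent.H23.GU.SNT

/-!
# Row SNA of gu_modules (MP_52e316_nt): the left kernel of a singular integer matrix
-/

set_option autoImplicit false

open MeasureTheory Pool.Agent.H34.GM Pool.Agent.H34.GZ Pool.Agent.H34.GU

namespace Pool.Agent.H75.GU

/-- the kernel as a submodule -/
private def KR {m : ℕ} (α : ZM m) : Submodule ℤ (Fin m → ℤ) where
  carrier := {c | Matrix.vecMul c α = 0}
  add_mem' := by
    intro a b ha hb
    simp only [Set.mem_ofPred_eq] at *
    rw [Matrix.add_vecMul, ha, hb, add_zero]
  zero_mem' := by simp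
  smul_mem' := by
    intro c a ha
    simp only [Set.mem_ofPred_eq] at *
    rw [Matrix.smul_vecMul, ha, smul_zero]

private theorem mem_KR {m : ℕ} (α : ZM m) (c : Fin m → ℤ) :
    c ∈ KR α ↔ Matrix.vecMul c α = 0 := Iff.rfl

private theorem snf_mem {m k : ℕ} (α : ZM m)
    (s : Module.Basis.SmithNormalForm (KR α) (Fin m) k) (i : Fin k) : s.bM (s.f i) ∈ KR α := by
  have h1 : s.a i • s.bM (s.f i) ∈ KR α := by
    rw [← s.snf i]
    exact (s.bN i).2
  have h2 : s.a i ≠ 0 := by
    intro h
    have h3 : ((s.bN i : KR α) : Fin m → ℤ) = 0 := by rw [s.snf i, h, zero_smul]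
    exact s.bN.ne_zero i (Subtype.ext h3)
  rw [mem_KR, Matrix.smul_vecMul] at h1
  rw [mem_KR]
  exact (smul_eq_zero.1 h1).resolve_left h2

private theorem mem_iff {m k : ℕ} (α : ZM m)
    (s : Module.Basis.SmithNormalForm (KR α) (Fin m) k) (v : Fin m → ℤ) :
    v ∈ KR α ↔ ∀ j, j ∉ Set.range s.f → s.bM.repr v j = 0 := by
  constructor
  · intro h j hj
    exact s.repr_eq_zero_of_notMem_range ⟨v, h⟩ hj
  · intro h
    rw [← s.bM.sum_repr v]
    refine Submodule.sum_mem _ fun j _ => ?_
    by_cases hj : j ∈ Set.range s.f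
    · obtain ⟨i, rfl⟩ := hj
      exact Submodule.smul_mem _ _ (snf_mem α s i)
    · rw [h j hj, zero_smul]
      exact Submodule.zero_mem _

theorem pf_SNA : T_SNA := by
  intro m α hdet hα
  classical
  obtain ⟨k, s⟩ := Submodule.smithNormalForm (Pi.basisFun ℤ (Fin m)) (KR α)
  have hk0 : 0 < k := by
    rcases Nat.eq_zero_or_pos k with h | h
    · exfalso
      subst h
      obtain ⟨c, hc, hc0⟩ := Matrix.exists_vecMul_eq_zero_iff.2 hdet
      have h1 : c ∈ KR α := hc0
      have h2 := (mem_iff α s c).1 h1
      apply hc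
      have h3 : s.bM.repr c = 0 := by
        ext j
        exact h2 j (by rintro ⟨i, -⟩; exact i.elim0)
      exact s.bM.repr.map_eq_zero_iff.1 h3
    · exact h
  have hkm : k ≤ m := by
    have := Fintype.card_le_of_injective s.f s.f.injective
    simpa using this
  have hkm' : k < m := by
    rcases hkm.lt_or_eq with h | h
    · exact h
    · exfalso
      subst h
      apply hα
      have hs : Function.Surjective s.f := Finite.surjective_of_injective s.f.injective
      ext i j
      have h1 : Pi.single i (1 : ℤ) ∈ KR α :=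
        (mem_iff α s _).2 fun j hj => absurd (hs j) hj
      rw [mem_KR, Matrix.single_one_vecMul] at h1
      have := congrFun h1 j
      simpa using this
  -- the permutation
  let e0 : {x : Fin m // (x : ℕ) < k} ≃ {x : Fin m // x ∈ Set.range s.f} :=
    (Equiv.ofBijective (fun x : {x : Fin m // (x : ℕ) < k} => (⟨x.1, x.2⟩ : Fin k)) (by
      constructor
      · intro a b h
        exact Subtype.ext (Fin.ext (by simpa using congrArg Fin.val h))
      · intro i
        exact ⟨⟨⟨i, lt_of_lt_of_le i.2 hkm⟩, i.2⟩, rfl⟩)).trans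
      (Equiv.ofInjective s.f s.f.injective)
  let e : Equiv.Perm (Fin m) := e0.extendSubtype
  have he : ∀ i : Fin m, e i ∈ Set.range s.f ↔ (i : ℕ) < k := by
    intro i
    constructor
    · intro h
      by_contra hi
      exact e0.extendSubtype_not_mem i hi h
    · intro h
      exact e0.extendSubtype_mem i h
  refine ⟨k, hk0, hkm', Matrix.of fun i => s.bM (e i), ?_, ?_⟩
  · have h1 : IsUnit ((Pi.basisFun ℤ (Fin m)).det (s.bM.reindex e.symm)) :=
      (Pi.basisFun ℤ (Fin m)).isUnit_det (s.bM.reindex e.symm)
    rw [Module.Basis.det_apply] at h1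
    rw [Matrix.isUnit_iff_isUnit_det, ← Matrix.det_transpose]
    have h2 : (Matrix.of fun i => s.bM (e i)).transpose =
        (Pi.basisFun ℤ (Fin m)).toMatrix (s.bM.reindex e.symm) := by
      ext i j
      simp [Module.Basis.toMatrix_apply]
    rw [h2]
    exact h1
  · ext c
    have h1 : Matrix.vecMul c (Matrix.of fun i => s.bM (e i)) = ∑ i, c i • s.bM (e i) := by
      ext j
      simp [Matrix.vecMul, dotProduct, Finset.sum_apply]
    have h2 : ∀ i, s.bM.repr (∑ l, c l • s.bM (e l)) (e i) = c i := by
      intro i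
      rw [map_sum, Finsupp.finsetSum_apply, Finset.sum_eq_single i]
      · rw [map_smul, Module.Basis.repr_self, Finsupp.smul_apply, Finsupp.single_eq_same,
          smul_eq_mul, mul_one]
      · intro l _ hl
        rw [map_smul, Module.Basis.repr_self, Finsupp.smul_apply]
        rw [Finsupp.single_eq_of_ne (fun h => hl (e.injective h.symm) )]
        simp
      · intro h
        exact absurd (Finset.mem_univ i) h
    have h3 : c ∈ KL ((Matrix.of fun i => s.bM (e i)) * α) ↔
        (∑ l, c l • s.bM (e l)) ∈ KR α := by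
      rw [mem_KR, ← h1, Matrix.vecMul_vecMul]
      rfl
    rw [h3, mem_iff α s]
    constructor
    · intro h i hi
      have h4 := h (e i) (fun h5 => absurd ((he i).1 h5) (not_lt.2 hi))
      rwa [h2] at h4
    · intro h j hj
      obtain ⟨i, rfl⟩ := e.surjective j
      rw [h2]
      exact h i (not_lt.1 fun h5 => hj ((he i).2 h5))

end Pool.Agent.H75.GU
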